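import Mathlib
import Pool.Agent.Y755.FK.Stm

/-!
PROJECT FK (helper755), part DET: from flatness to the determinate moment problem.
-/

set_option autoImplicit false

open MeasureTheory Filter Finset
open scoped Nat

namespace Pool.Agent.Y950.FK

lemma ib {f : ℝ → ℝ} (hf : Measurable f) (K : ℝ) (h : ∀ u, 0 < u → |f u| ≤ K * (1 + u ^ 2)⁻¹) :
    IntegrableOn f (Set.Ioi 0) := by
  refine Integrable.mono' ((integrable_inv_one_add_sq.const_mul K).integrableOn)
    hf.aestronglyMeasurable ?_
  refine (ae_restrict_mem measurableSet_Ioi).mono fun u hu => ?_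
  exact h u hu

lemma pow_exp {b y : ℝ} (hb : 0 < b) (hy : 0 ≤ y) (m : ℕ) :
    y ^ m * Real.exp (-(b * y)) ≤ m ! / b ^ m := by
  have h1 := Real.pow_div_factorial_le_exp (b * y) (by positivity) m
  have hm : (0 : ℝ) < m ! := by exact_mod_cast Nat.factorial_pos m
  rw [div_le_iff₀ hm, mul_pow] at h1
  rw [Real.exp_neg, le_div_iff₀ (by positivity)]
  have he := Real.exp_pos (b * y)
  calc y ^ m * (Real.exp (b * y))⁻¹ * b ^ m = (b ^ m * y ^ m) * (Real.exp (b * y))⁻¹ := by ring
    _ ≤ (Real.exp (b * y) * m !) * (Real.exp (b * y))⁻¹ := by gcongr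
    _ = m ! := by field_simp

lemma int_exp {c : ℝ} (hc : 0 < c) (n : ℕ) :
    IntegrableOn (fun u : ℝ => u ^ n * Real.exp (-(c * √u))) (Set.Ioi 0) := by
  refine ib (by fun_prop) ((2 * n)! / c ^ (2 * n) + (2 * n + 4)! / c ^ (2 * n + 4)) fun u hu => ?_
  have h0 : 0 < 1 + u ^ 2 := by positivity
  rw [abs_of_nonneg (by positivity), ← div_eq_mul_inv, le_div_iff₀ h0]
  have hs := Real.sqrt_nonneg u
  have hsq : √u ^ 2 = u := Real.sq_sqrt hu.le
  have h1 := pow_exp hc hs (2 * n)
  have h2 := pow_exp hc hs (2 * n + 4)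
  have e1 : √u ^ (2 * n) = u ^ n := by rw [pow_mul, hsq]
  have e2 : √u ^ (2 * n + 4) = u ^ n * u ^ 2 := by
    rw [pow_add, e1, show (4 : ℕ) = 2 * 2 by norm_num, pow_mul, hsq]
  rw [e1] at h1
  rw [e2] at h2
  nlinarith

/-- Taylor remainder of the exponential on the negative axis -/
lemma taylor (n : ℕ) {y : ℝ} (hy : 0 ≤ y) :
    |Real.exp (-y) - ∑ j ∈ range n, (-y) ^ j / j !| ≤ (n + 3) * y ^ n := by
  rcases le_total y 1 with h1 | h1
  · have h2 : |Real.exp (-y) - ∑ j ∈ range n, (-y) ^ j / j !| ≤ |(-y)| ^ n * Real.exp |(-y)| := by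
      have h3 := Complex.norm_exp_sub_sum_le_norm_mul_exp ((-y : ℝ) : ℂ) n
      have h4 : Complex.exp ((-y : ℝ) : ℂ) - ∑ m ∈ range n, ((-y : ℝ) : ℂ) ^ m / (m ! : ℂ) =
          ((Real.exp (-y) - ∑ j ∈ range n, (-y) ^ j / j ! : ℝ) : ℂ) := by push_cast; rfl
      rw [h4, Complex.norm_real, Complex.norm_real] at h3
      exact h3
    refine h2.trans ?_
    rw [abs_neg, abs_of_nonneg hy, mul_comm]
    refine mul_le_mul_of_nonneg_right ?_ (by positivity)
    have h3 : Real.exp y ≤ Real.exp 1 := Real.exp_le_exp.mpr h1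
    have h4 := Real.exp_one_lt_d9
    have h5 : (0 : ℝ) ≤ n := Nat.cast_nonneg n
    linarith
  · have h2 : |∑ j ∈ range n, (-y) ^ j / j !| ≤ n * y ^ n := by
      refine (Finset.abs_sum_le_sum_abs _ _).trans ?_
      have h3 : ∀ j ∈ range n, |(-y) ^ j / j !| ≤ y ^ n := by
        intro j hj
        rw [Finset.mem_range] at hj
        rw [abs_div, abs_pow, abs_neg, abs_of_nonneg hy, Nat.abs_cast]
        have h4 : (1 : ℝ) ≤ j ! := by exact_mod_cast Nat.factorial_pos j
        calc y ^ j / j ! ≤ y ^ j / 1 := by gcongr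
          _ = y ^ j := div_one _
          _ ≤ y ^ n := pow_le_pow_right₀ h1 hj.le
      refine (Finset.sum_le_sum h3).trans ?_
      rw [Finset.sum_const, Finset.card_range, nsmul_eq_mul]
    have h3 : Real.exp (-y) ≤ 1 := Real.exp_le_one_iff.mpr (by linarith)
    have h4 : (1 : ℝ) ≤ y ^ n := one_le_pow₀ h1
    have h5 := abs_sub (Real.exp (-y)) (∑ j ∈ range n, (-y) ^ j / j !)
    rw [abs_of_pos (Real.exp_pos (-y))] at h5
    nlinarith

/-- **DET**. -/
theorem t_DET : Pool.Agent.Y755.FK.S_DET2 → Pool.Agent.Y755.FK.S_DET := by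
  rintro hD2 t ht ⟨c, C, hc, h1⟩ h2 ⟨M, h3⟩ h4
  have hM : 0 ≤ M := (abs_nonneg _).trans (h3 0 le_rfl zero_le_one)
  -- decay
  have hdec : ∀ n : ℕ, ∃ K : ℝ, ∀ u, 0 < u → |t u| * u ^ n ≤ K * (1 + u ^ 2)⁻¹ := by
    intro n
    obtain ⟨D, hD⟩ := h2 (n + 2)
    refine ⟨2 * M + 2 * |D|, fun u hu => ?_⟩
    have h0 : 0 < 1 + u ^ 2 := by positivity
    rw [← div_eq_mul_inv, le_div_iff₀ h0]
    rcases le_total u 1 with h | h
    · have h5 := h3 u hu.le h
      have h6 : u ^ n ≤ 1 := pow_le_one₀ hu.le h
      have h7 : u ^ 2 ≤ 1 := pow_le_one₀ hu.le h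
      have h8 : 0 ≤ u ^ n := by positivity
      calc |t u| * u ^ n * (1 + u ^ 2) ≤ M * 1 * (1 + 1) := by gcongr
        _ ≤ 2 * M + 2 * |D| := by nlinarith [abs_nonneg D]
    · have h5 := (hD u h).trans (div_le_div_of_nonneg_right (le_abs_self D) (by positivity))
      have h6 : 0 < u ^ n := by positivity
      have h7 : (1 : ℝ) ≤ u ^ 2 := one_le_pow₀ h
      calc |t u| * u ^ n * (1 + u ^ 2) ≤ |D| / u ^ (n + 2) * u ^ n * (u ^ 2 + u ^ 2) := by gcongr
        _ = 2 * |D| := by
            rw [pow_add]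
            field_simp
            ring
        _ ≤ 2 * M + 2 * |D| := by linarith
  have hint : ∀ n : ℕ, IntegrableOn (fun u => |t u| * u ^ n) (Set.Ioi 0) := by
    intro n
    obtain ⟨K, hK⟩ := hdec n
    refine ib (by fun_prop) K fun u hu => ?_
    rw [abs_of_nonneg (by positivity)]
    exact hK u hu
  have hint' : ∀ n : ℕ, IntegrableOn (fun u => t u * u ^ n) (Set.Ioi 0) := by
    intro n
    obtain ⟨K, hK⟩ := hdec n
    refine ib (by fun_prop) K fun u hu => ?_
    rw [abs_mul, abs_of_nonneg (a := u ^ n) (by positivity)]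
    exact hK u hu
  -- the moments vanish
  have hmom : ∀ n : ℕ, ∫ u in Set.Ioi (0 : ℝ), t u * u ^ n = 0 := by
    intro n
    induction n using Nat.strong_induction_on with
    | _ n ih =>
    obtain ⟨D, hD⟩ := h4 (n + 1)
    set m := ∫ u in Set.Ioi (0 : ℝ), t u * u ^ n with hm
    set I := ∫ u in Set.Ioi (0 : ℝ), |t u| * u ^ (n + 1) with hI
    have hkey : ∀ x : ℝ, 0 < x → x < 1 → |m| / n ! ≤ (D + (n + 1 + 3) * I) * x := by
      intro x hx hx1
      have hR : IntegrableOn (fun u => t u * (Real.exp (-(x * u)) -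
          ∑ j ∈ range (n + 1), (-(x * u)) ^ j / j !)) (Set.Ioi 0) := by
        have hg : IntegrableOn (fun u => (n + 1 + 3) * x ^ (n + 1) * (|t u| * u ^ (n + 1)))
            (Set.Ioi 0) := (hint (n + 1)).const_mul _
        refine Integrable.mono' hg (by fun_prop) ?_
        refine (ae_restrict_mem measurableSet_Ioi).mono fun u hu => ?_
        have hu' : (0 : ℝ) < u := hu
        have := taylor (n + 1) (y := x * u) (by positivity)
        rw [Real.norm_eq_abs, abs_mul]
        calc |t u| * _ ≤ |t u| * (((n + 1 : ℕ) + 3) * (x * u) ^ (n + 1)) := by gcongr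
          _ = _ := by push_cast; rw [mul_pow]; ring
      have hS : ∀ j : ℕ, IntegrableOn (fun u => t u * ((-(x * u)) ^ j / j !)) (Set.Ioi 0) := by
        intro j
        have h5 : IntegrableOn (fun u => ((-x) ^ j / j !) * (t u * u ^ j)) (Set.Ioi 0) :=
          (hint' j).const_mul _
        refine h5.congr_fun (fun u _ => ?_) measurableSet_Ioi
        simp only
        rw [← neg_mul, mul_pow]
        ring
      have hSum : ∫ u in Set.Ioi (0 : ℝ), t u * ∑ j ∈ range (n + 1), (-(x * u)) ^ j / j ! =
          (-x) ^ n / n ! * m := by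
        have h5 : ∫ u in Set.Ioi (0 : ℝ), t u * ∑ j ∈ range (n + 1), (-(x * u)) ^ j / j ! =
            ∑ j ∈ range (n + 1), ∫ u in Set.Ioi (0 : ℝ), t u * ((-(x * u)) ^ j / j !) := by
          rw [← integral_finsetSum _ (fun j _ => hS j)]
          refine setIntegral_congr_fun measurableSet_Ioi fun u _ => ?_
          rw [Finset.mul_sum]
        have h6 : ∀ j : ℕ, ∫ u in Set.Ioi (0 : ℝ), t u * ((-(x * u)) ^ j / j !) =
            (-x) ^ j / j ! * ∫ u in Set.Ioi (0 : ℝ), t u * u ^ j := by
          intro j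
          rw [← integral_const_mul]
          refine setIntegral_congr_fun measurableSet_Ioi fun u _ => ?_
          rw [← neg_mul, mul_pow]
          ring
        rw [h5, Finset.sum_range_succ, h6 n]
        have h7 : ∑ j ∈ range n, ∫ u in Set.Ioi (0 : ℝ), t u * ((-(x * u)) ^ j / j !) = 0 := by
          refine Finset.sum_eq_zero fun j hj => ?_
          rw [h6 j, ih j (Finset.mem_range.mp hj), mul_zero]
        rw [h7, zero_add]
      have hL : ∫ u in Set.Ioi (0 : ℝ), t u * Real.exp (-(x * u)) =
          (∫ u in Set.Ioi (0 : ℝ), t u * (Real.exp (-(x * u)) -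
            ∑ j ∈ range (n + 1), (-(x * u)) ^ j / j !)) + (-x) ^ n / n ! * m := by
        have hSI : IntegrableOn (fun u => t u * ∑ j ∈ range (n + 1), (-(x * u)) ^ j / j !)
            (Set.Ioi 0) := by
          have h5 : IntegrableOn (fun u => ∑ j ∈ range (n + 1), t u * ((-(x * u)) ^ j / j !))
            (Set.Ioi 0) := integrable_finsetSum _ fun j _ => hS j
          refine h5.congr_fun (fun u _ => ?_) measurableSet_Ioi
          simp only
          rw [Finset.mul_sum]
        rw [← hSum, ← integral_add hR hSI]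
        refine setIntegral_congr_fun measurableSet_Ioi fun u _ => ?_
        ring
      have hRb : |∫ u in Set.Ioi (0 : ℝ), t u * (Real.exp (-(x * u)) -
            ∑ j ∈ range (n + 1), (-(x * u)) ^ j / j !)| ≤ (n + 1 + 3) * x ^ (n + 1) * I := by
        rw [hI, ← integral_const_mul, ← Real.norm_eq_abs]
        refine norm_integral_le_of_norm_le ((hint (n + 1)).const_mul _) ?_
        refine (ae_restrict_mem measurableSet_Ioi).mono fun u hu => ?_
        have hu' : (0 : ℝ) < u := hu
        have := taylor (n + 1) (y := x * u) (by positivity)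
        rw [Real.norm_eq_abs, abs_mul]
        calc |t u| * _ ≤ |t u| * (((n + 1 : ℕ) + 3) * (x * u) ^ (n + 1)) := by gcongr
          _ = _ := by push_cast; rw [mul_pow]; ring
      have h5 := hD x hx hx1
      have h6 : |(-x) ^ n / n ! * m| ≤ D * x ^ (n + 1) + (n + 1 + 3) * x ^ (n + 1) * I := by
        have h7 : (-x) ^ n / n ! * m = (∫ u in Set.Ioi (0 : ℝ), t u * Real.exp (-(x * u))) -
          (∫ u in Set.Ioi (0 : ℝ), t u * (Real.exp (-(x * u)) -
            ∑ j ∈ range (n + 1), (-(x * u)) ^ j / j !)) := by rw [hL]; ring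
        rw [h7]
        exact (abs_sub _ _).trans (add_le_add h5 hRb)
      rw [abs_mul, abs_div, abs_pow, abs_neg, abs_of_pos hx, Nat.abs_cast] at h6
      have hxn : 0 < x ^ n := by positivity
      have h8 : x ^ n * (|m| / n !) ≤ x ^ n * ((D + (n + 1 + 3) * I) * x) := by
        calc x ^ n * (|m| / n !) = x ^ n / n ! * |m| := by ring
          _ ≤ _ := h6
          _ = _ := by ring
      exact le_of_mul_le_mul_left h8 hxn
    by_contra hne
    have hpos : 0 < |m| / n ! := by
      have : (0 : ℝ) < n ! := by exact_mod_cast Nat.factorial_pos n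
      have := abs_pos.mpr hne
      positivity
    set A := |D + (n + 1 + 3) * I| + 1 with hA
    have hA0 : 0 < A := by positivity
    set x := min (1 / 2) (|m| / n ! / (2 * A)) with hx
    have hx0 : 0 < x := lt_min (by norm_num) (by positivity)
    have hx1 : x < 1 := lt_of_le_of_lt (min_le_left _ _) (by norm_num)
    have h5 := hkey x hx0 hx1
    have h6 : (D + (n + 1 + 3) * I) * x ≤ A * x := by
      refine mul_le_mul_of_nonneg_right ?_ hx0.le
      rw [hA]
      linarith [le_abs_self (D + (n + 1 + 3) * I)]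
    have h7 : A * x ≤ |m| / n ! / 2 := by
      calc A * x ≤ A * (|m| / n ! / (2 * A)) := by gcongr; exact min_le_right _ _
        _ = |m| / n ! / 2 := by field_simp
    linarith
  -- the positive part
  set C' := |C| + M * Real.exp c with hC'
  have hC'0 : 0 ≤ C' := by positivity
  have hplus : ∀ u, 0 < u → max (t u) 0 ≤ C' * Real.exp (-(c * √u)) := by
    intro u hu
    refine max_le ?_ (by positivity)
    rcases le_total u 1 with h | h
    · have h5 := (le_abs_self _).trans (h3 u hu.le h)
      have h6 : √u ≤ 1 := Real.sqrt_le_one.mpr h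
      calc t u ≤ M * 1 := by linarith
        _ ≤ M * (Real.exp c * Real.exp (-(c * √u))) := by
            refine mul_le_mul_of_nonneg_left ?_ hM
            rw [← Real.exp_add]
            exact Real.one_le_exp (by nlinarith)
        _ = (M * Real.exp c) * Real.exp (-(c * √u)) := by ring
        _ ≤ C' * Real.exp (-(c * √u)) := by
            refine mul_le_mul_of_nonneg_right ?_ (Real.exp_pos _).le
            rw [hC']
            linarith [abs_nonneg C]
    · refine (h1 u h).trans (mul_le_mul_of_nonneg_right ?_ (Real.exp_pos _).le)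
      rw [hC']
      have : 0 ≤ M * Real.exp c := by positivity
      linarith [le_abs_self C]
  have habs : ∀ n : ℕ, ∫ u in Set.Ioi (0 : ℝ), |t u| * u ^ n ≤
      2 * C' * ∫ u in Set.Ioi (0 : ℝ), u ^ n * Real.exp (-(c * √u)) := by
    intro n
    have hp : IntegrableOn (fun u => max (t u) 0 * u ^ n) (Set.Ioi 0) := by
      refine Integrable.mono' (hint n) (by fun_prop) ?_
      refine (ae_restrict_mem measurableSet_Ioi).mono fun u hu => ?_
      have hu' : (0 : ℝ) < u := hu
      rw [Real.norm_eq_abs, abs_mul, abs_of_nonneg (a := u ^ n) (by positivity),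
        abs_of_nonneg (le_max_right _ _)]
      exact mul_le_mul_of_nonneg_right (max_le (le_abs_self _) (abs_nonneg _)) (by positivity)
    have h5 : ∫ u in Set.Ioi (0 : ℝ), |t u| * u ^ n =
        2 * (∫ u in Set.Ioi (0 : ℝ), max (t u) 0 * u ^ n) -
          ∫ u in Set.Ioi (0 : ℝ), t u * u ^ n := by
      rw [← integral_const_mul, ← integral_sub (hp.const_mul 2) (hint' n)]
      refine setIntegral_congr_fun measurableSet_Ioi fun u _ => ?_
      have : |t u| = 2 * max (t u) 0 - t u := by
        rcases le_total 0 (t u) with h | h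
        · rw [abs_of_nonneg h, max_eq_left h]; ring
        · rw [abs_of_nonpos h, max_eq_right h]; ring
      rw [this]
      ring
    rw [h5, hmom n, sub_zero, mul_assoc]
    refine mul_le_mul_of_nonneg_left ?_ (by norm_num)
    rw [← integral_const_mul]
    refine setIntegral_mono_on hp ((int_exp hc n).const_mul C') measurableSet_Ioi fun u hu => ?_
    have hu' : (0 : ℝ) < u := hu
    calc max (t u) 0 * u ^ n ≤ (C' * Real.exp (-(c * √u))) * u ^ n :=
          mul_le_mul_of_nonneg_right (hplus u hu') (by positivity)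
      _ = _ := by ring
  -- exponential integrability
  refine hD2 t (c / 2) ht (by positivity) ?_ hmom
  have hcosh : ∀ u : ℝ, 0 < u → HasSum (fun n : ℕ => (c / 2) ^ (2 * n) / (2 * n)! * u ^ n)
      (Real.cosh (c / 2 * √u)) := by
    intro u hu
    have h5 := Real.hasSum_cosh (c / 2 * √u)
    have h6 : (fun n : ℕ => (c / 2) ^ (2 * n) / (2 * n)! * u ^ n) =
        fun n : ℕ => (c / 2 * √u) ^ (2 * n) / (2 * n)! := by
      funext n
      rw [mul_pow, pow_mul (√u), Real.sq_sqrt hu.le]
      ring
    rw [h6]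
    exact h5
  have hlin : ∫⁻ u in Set.Ioi (0 : ℝ), ENNReal.ofReal (|t u| * Real.cosh (c / 2 * √u)) < ⊤ := by
    have e1 : ∫⁻ u in Set.Ioi (0 : ℝ), ENNReal.ofReal (|t u| * Real.cosh (c / 2 * √u)) =
        ∑' n : ℕ, ∫⁻ u in Set.Ioi (0 : ℝ),
          ENNReal.ofReal ((c / 2) ^ (2 * n) / (2 * n)! * (|t u| * u ^ n)) := by
      rw [← lintegral_tsum (fun n => by fun_prop)]
      refine setLIntegral_congr_fun measurableSet_Ioi fun u hu => ?_
      have hu' : (0 : ℝ) < u := hu
      rw [← ENNReal.ofReal_tsum_of_nonneg (fun n => by positivity)]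
      · congr 1
        rw [← (hcosh u hu').tsum_eq, ← tsum_mul_left]
        refine tsum_congr fun n => ?_
        ring
      · have := (hcosh u hu').summable.mul_left |t u|
        refine this.congr fun n => ?_
        ring
    have e2 : ∫⁻ u in Set.Ioi (0 : ℝ), ENNReal.ofReal (2 * C' * (Real.exp (-(c * √u)) *
          Real.cosh (c / 2 * √u))) =
        ∑' n : ℕ, ∫⁻ u in Set.Ioi (0 : ℝ),
          ENNReal.ofReal (2 * C' * ((c / 2) ^ (2 * n) / (2 * n)! *
            (u ^ n * Real.exp (-(c * √u))))) := by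
      rw [← lintegral_tsum (fun n => by fun_prop)]
      refine setLIntegral_congr_fun measurableSet_Ioi fun u hu => ?_
      have hu' : (0 : ℝ) < u := hu
      rw [← ENNReal.ofReal_tsum_of_nonneg (fun n => by positivity)]
      · congr 1
        rw [← (hcosh u hu').tsum_eq, ← tsum_mul_left, ← tsum_mul_left]
        refine tsum_congr fun n => ?_
        ring
      · have := (hcosh u hu').summable.mul_left (2 * C' * Real.exp (-(c * √u)))
        refine this.congr fun n => ?_
        ring
    have e3 : ∫⁻ u in Set.Ioi (0 : ℝ), ENNReal.ofReal (|t u| * Real.cosh (c / 2 * √u)) ≤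
        ∫⁻ u in Set.Ioi (0 : ℝ), ENNReal.ofReal (2 * C' * (Real.exp (-(c * √u)) *
          Real.cosh (c / 2 * √u))) := by
      rw [e1, e2]
      refine ENNReal.tsum_le_tsum fun n => ?_
      have hn1 : IntegrableOn (fun u => (c / 2) ^ (2 * n) / (2 * n)! * (|t u| * u ^ n))
        (Set.Ioi 0) := (hint n).const_mul _
      have hn2 : IntegrableOn (fun u => 2 * C' * ((c / 2) ^ (2 * n) / (2 * n)! *
            (u ^ n * Real.exp (-(c * √u))))) (Set.Ioi 0) :=
        ((int_exp hc n).const_mul _).const_mul _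
      rw [← ofReal_integral_eq_lintegral_ofReal hn1, ← ofReal_integral_eq_lintegral_ofReal hn2]
      · apply ENNReal.ofReal_le_ofReal
        rw [integral_const_mul, integral_const_mul, integral_const_mul]
        have h5 := mul_le_mul_of_nonneg_left (habs n)
          (show (0 : ℝ) ≤ (c / 2) ^ (2 * n) / (2 * n)! by positivity)
        refine h5.trans (le_of_eq ?_)
        ring
      · refine (ae_restrict_mem measurableSet_Ioi).mono fun u hu => ?_
        have hu' : (0 : ℝ) < u := hu
        simp only [Pi.zero_apply]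
        positivity
      · refine (ae_restrict_mem measurableSet_Ioi).mono fun u hu => ?_
        have hu' : (0 : ℝ) < u := hu
        simp only [Pi.zero_apply]
        positivity
    refine lt_of_le_of_lt e3 ?_
    have e4 : ∫⁻ u in Set.Ioi (0 : ℝ), ENNReal.ofReal (2 * C' * (Real.exp (-(c * √u)) *
          Real.cosh (c / 2 * √u))) ≤
        ∫⁻ u in Set.Ioi (0 : ℝ), ENNReal.ofReal (2 * C' * (u ^ 0 *
          Real.exp (-(c / 2 * √u)))) := by
      refine setLIntegral_mono' measurableSet_Ioi fun u hu => ?_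
      apply ENNReal.ofReal_le_ofReal
      refine mul_le_mul_of_nonneg_left ?_ (by positivity)
      rw [pow_zero, one_mul]
      have h5 : Real.cosh (c / 2 * √u) ≤ Real.exp (c / 2 * √u) := by
        rw [Real.cosh_eq]
        have : Real.exp (-(c / 2 * √u)) ≤ Real.exp (c / 2 * √u) := by
          apply Real.exp_le_exp.mpr
          have : 0 ≤ c / 2 * √u := by positivity
          linarith
        linarith
      calc Real.exp (-(c * √u)) * Real.cosh (c / 2 * √u) ≤
            Real.exp (-(c * √u)) * Real.exp (c / 2 * √u) := by gcongr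
        _ = Real.exp (-(c / 2 * √u)) := by
            rw [← Real.exp_add]
            congr 1
            ring
    refine lt_of_le_of_lt e4 ?_
    have h5 : IntegrableOn (fun u : ℝ => 2 * C' * (u ^ 0 * Real.exp (-(c / 2 * √u))))
      (Set.Ioi 0) := (int_exp (c := c / 2) (by positivity) 0).const_mul _
    exact h5.lintegral_lt_top
  have hci : IntegrableOn (fun u => |t u| * Real.cosh (c / 2 * √u)) (Set.Ioi 0) := by
    refine ⟨by fun_prop, ?_⟩
    rw [hasFiniteIntegral_iff_ofReal]
    · exact hlin
    · exact Eventually.of_forall fun u => by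
        simp only [Pi.zero_apply]
        have := Real.cosh_pos (c / 2 * √u)
        positivity
  refine Integrable.mono' (hci.const_mul 2) (by fun_prop) ?_
  refine Eventually.of_forall fun u => ?_
  have h5 : Real.exp (c / 2 * √u) ≤ 2 * Real.cosh (c / 2 * √u) := by
    rw [Real.cosh_eq]
    have := Real.exp_pos (-(c / 2 * √u))
    linarith
  rw [Real.norm_eq_abs, abs_mul, abs_abs, abs_of_pos (Real.exp_pos _)]
  calc |t u| * Real.exp (c / 2 * √u) ≤ |t u| * (2 * Real.cosh (c / 2 * √u)) := by gcongr
    _ = _ := by ring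

end Pool.Agent.Y950.FK
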